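import Pool.Agent.Lib.MP_e3676c_co.Main

set_option autoImplicit false

namespace Pool.Agent.Results.MP_e3676c_co.FourSuffices

/-- **Every `m`-uniform shift-chain with `m ≥ 4` is 2-colourable.** -/
theorem result (m : ℕ) (hm : 4 ≤ m) (n : ℕ) (H : Finset (Finset (Fin n)))
    (hH : ∀ A ∈ H, A.card = m)
    (hch : ∀ A (hA : A ∈ H) B (hB : B ∈ H),
      (∀ i : Fin m, A.orderEmbOfFin (hH A hA) i ≤ B.orderEmbOfFin (hH B hB) i) ∨
      (∀ i : Fin m, B.orderEmbOfFin (hH B hB) i ≤ A.orderEmbOfFin (hH A hA) i)) :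
    ∃ c : Fin n → Bool, ∀ A ∈ H, ∃ x ∈ A, ∃ y ∈ A, c x ≠ c y :=
  Pool.Agent.Lib.MP_e3676c_co.two_colourable m hm n H hH hch

end Pool.Agent.Results.MP_e3676c_co.FourSuffices
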