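import Pool.Agent.Lib.MP_e3676c_co.Sharp

/-! Shift-chains of every uniformity without a colouring that gives each member one point of the
first colour and two points of the second colour. -/

set_option autoImplicit false

namespace Pool.Agent.Results.MP_e3676c_co.NoShallowHitting

theorem result (m : ℕ) :
    ∃ (n : ℕ) (H : Finset (Finset (Fin n))) (hH : ∀ A ∈ H, A.card = m),
      (∀ A (hA : A ∈ H) B (hB : B ∈ H),
        (∀ i : Fin m, A.orderEmbOfFin (hH A hA) i ≤ B.orderEmbOfFin (hH B hB) i) ∨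
        (∀ i : Fin m, B.orderEmbOfFin (hH B hB) i ≤ A.orderEmbOfFin (hH A hA) i)) ∧
      ∀ R : Finset (Fin n), ∃ A ∈ H, A ∩ R = ∅ ∨ (A \ R).card ≤ 1 :=
  Pool.Agent.Lib.MP_e3676c_co.Sharp.one_two m

end Pool.Agent.Results.MP_e3676c_co.NoShallowHitting
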