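import Pool.Agent.Lib.MP_e3676c_co.Sharp

/-! Shift-chains of every uniformity that are not colourable from lists of two colours. -/

set_option autoImplicit false

namespace Pool.Agent.Results.MP_e3676c_co.NotChoosable

theorem result (m : ℕ) :
    ∃ (n : ℕ) (H : Finset (Finset (Fin n))) (hH : ∀ A ∈ H, A.card = m),
      (∀ A (hA : A ∈ H) B (hB : B ∈ H),
        (∀ i : Fin m, A.orderEmbOfFin (hH A hA) i ≤ B.orderEmbOfFin (hH B hB) i) ∨
        (∀ i : Fin m, B.orderEmbOfFin (hH B hB) i ≤ A.orderEmbOfFin (hH A hA) i)) ∧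
      ∃ L : Fin n → Finset (Fin 3), (∀ x, (L x).card = 2) ∧
        ∀ c : Fin n → Fin 3, (∀ x, c x ∈ L x) → ∃ A ∈ H, ∀ x ∈ A, ∀ y ∈ A, c x = c y :=
  Pool.Agent.Lib.MP_e3676c_co.Sharp.lists m

end Pool.Agent.Results.MP_e3676c_co.NotChoosable
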